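import Mathlib
import Pool.Agent.W825.NC.Steiner

set_option autoImplicit false

/-!
# Automorphism groups of Steiner systems S(k²+k+1, k+1, 2), a theorem of Bruck-Ryser type
-/

namespace Pool.Agent.Results.MP_409a13_co.AutomorphismGroups

/-- Let `B` be the set of blocks of a Steiner system `S(k ^ 2 + k + 1, k + 1, 2)` (a projective
plane of order `k`) and `G` any group of automorphisms.  If `k` is 3 modulo 8 and not of the form
`x ^ 2 + 2 y ^ 2`, then `G` has a normal subgroup of odd order with cyclic quotient of order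
1, 2 or 4.  If `k` is 7 modulo 8 and not of the form `x ^ 2 - 2 y ^ 2`, then every 2-subgroup of `G`
has at most one element of order 2, and its order divides `k + 1`. -/
theorem result (k : ℕ) (B : Finset (Finset (Fin (k ^ 2 + k + 1))))
    (hcard : ∀ b ∈ B, b.card = k + 1)
    (hone : ∀ x y : Fin (k ^ 2 + k + 1), x ≠ y → ∃! b, b ∈ B ∧ x ∈ b ∧ y ∈ b)
    (G : Subgroup (Equiv.Perm (Fin (k ^ 2 + k + 1))))
    (hG : ∀ g ∈ G, ∀ b ∈ B, b.map g.toEmbedding ∈ B) :
    (k % 8 = 3 → (¬ ∃ x y : ℤ, (k : ℤ) = x ^ 2 + 2 * y ^ 2) →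
      ∃ (N : Subgroup G) (_ : N.Normal), Odd (Nat.card N) ∧ IsCyclic (G ⧸ N) ∧
        Nat.card (G ⧸ N) ∣ 4) ∧
    (k % 8 = 7 → (¬ ∃ x y : ℤ, (k : ℤ) = x ^ 2 - 2 * y ^ 2) →
      ∀ S : Subgroup G, IsPGroup 2 S → Nat.card S ∣ k + 1 ∧
        ∀ s t : S, orderOf s = 2 → orderOf t = 2 → s = t) :=
  Pool.Agent.W825.NC.steiner_grp hcard hone G hG

end Pool.Agent.Results.MP_409a13_co.AutomorphismGroups
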