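import Pool.Agent.W865.SS.Steiner

/-!
# One large Steiner system `S(m,q,2)` gives all larger ones of its residue class

There is an absolute constant `C` such that for every block size `q`, every `m ≥ q^C` for which a
Steiner system `S(m,q,2)` exists and every `n ≥ m^C` that is congruent to `m`, to `1` or to `q`
modulo `q(q-1)` there is a Steiner system `S(n,q,2)`.
-/

set_option autoImplicit false

namespace Pool.Agent.Results.MP_409a13_co.OneSeed

open Pool.Agent.W865.SS

/-- There is a constant `C` such that for every `q ≥ 2` and every `m ≥ q^C` for which a Steiner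
system `S(m,q,2)` exists, a Steiner system `S(n,q,2)` exists for all `n ≥ m^C` with
`n ≡ m`, `n ≡ 1` or `n ≡ q` modulo `q(q-1)`. -/
theorem result : ∃ C : ℕ, ∀ q : ℕ, 2 ≤ q → ∀ m : ℕ, q ^ C ≤ m →
    (∃ B : Finset (Finset (Fin m)), (∀ b ∈ B, b.card = q) ∧
      ∀ T : Finset (Fin m), T.card = 2 → ∃! b, b ∈ B ∧ T ⊆ b) →
    ∀ n : ℕ, m ^ C ≤ n →
      (n ≡ m [MOD q * (q - 1)] ∨ n ≡ 1 [MOD q * (q - 1)] ∨ n ≡ q [MOD q * (q - 1)]) →
      ∃ B : Finset (Finset (Fin n)), (∀ b ∈ B, b.card = q) ∧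
        ∀ T : Finset (Fin n), T.card = 2 → ∃! b, b ∈ B ∧ T ⊆ b := by
  obtain ⟨C, hC⟩ := persist
  refine ⟨C, fun q hq m hm hS n hn hmod => ?_⟩
  rcases Nat.lt_or_ge q 3 with h3 | h3
  · have : q = 2 := by omega
    subst this
    exact steiner_two n
  · obtain ⟨B, h1, h2⟩ := hS
    have hm0 : 0 < m := lt_of_lt_of_le (Nat.pow_pos (by omega)) hm
    exact steiner_of_ig (hC q h3 m hm (ig_of_steiner h1 h2)
      (Pool.Agent.W855.necessary_one hm0 h1 h2) n hn hmod)

end Pool.Agent.Results.MP_409a13_co.OneSeed
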