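import Pool.Agent.W865.SS.PG

/-!
# Steiner systems `S(n,q,2)`, `q - 1` a prime power: a polynomial threshold

There is an absolute constant `C` such that for every `q` for which `q - 1` is a prime power and
every `n ≥ q^C` with `n ≡ 1` or `n ≡ q` modulo `q(q-1)` there is a Steiner system `S(n,q,2)`.
-/

set_option autoImplicit false

namespace Pool.Agent.Results.MP_409a13_co.PlusOneBlocks

open Pool.Agent.W865.SS

/-- There is a constant `C` such that for every `q` with `q - 1` a prime power a Steiner system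
`S(n,q,2)` exists for all `n ≥ q^C` with `n ≡ 1` or `n ≡ q` modulo `q(q-1)`. -/
theorem result : ∃ C : ℕ, ∀ q : ℕ, IsPrimePow (q - 1) → ∀ n : ℕ, q ^ C ≤ n →
    (n ≡ 1 [MOD q * (q - 1)] ∨ n ≡ q [MOD q * (q - 1)]) →
      ∃ B : Finset (Finset (Fin n)), (∀ b ∈ B, b.card = q) ∧
        ∀ T : Finset (Fin n), T.card = 2 → ∃! b, b ∈ B ∧ T ⊆ b := by
  obtain ⟨C, hC⟩ := plus_one
  exact ⟨C, fun q hq n hn hmod => steiner_of_ig (hC q hq n hn hmod)⟩

end Pool.Agent.Results.MP_409a13_co.PlusOneBlocks
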