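import Pool.Agent.W855.Threshold
import Pool.Agent.W855.Conv

/-!
# Steiner systems `S(n,q,2)`, `q` a prime power: a polynomial threshold

There is an absolute constant `C` such that for every prime power `q` and every `n ≥ q^C` the
divisibility condition (D) is necessary and sufficient for the existence of a Steiner system
`S(n,q,2)`.
-/

set_option autoImplicit false

namespace Pool.Agent.Results.MP_409a13_co.PolynomialThreshold

/-- There is a constant `C` such that for every prime power `q` and every `n ≥ q^C` a
Steiner system `S(n,q,2)` exists if and only if the divisibility condition (D) holds. -/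
theorem result : ∃ C : ℕ, ∀ q : ℕ, IsPrimePow q → ∀ n : ℕ, q ^ C ≤ n →
      ((∃ B : Finset (Finset (Fin n)), (∀ b ∈ B, b.card = q) ∧
          ∀ T : Finset (Fin n), T.card = 2 → ∃! b, b ∈ B ∧ T ⊆ b) ↔
        ∀ i < 2, (q - i).choose (2 - i) ∣ (n - i).choose (2 - i)) := by
  obtain ⟨C, hC⟩ := Pool.Agent.W855.threshold_main
  refine ⟨C, fun q hq n hn => ?_⟩
  have hq2 : 2 ≤ q := hq.two_le
  have hpos : 0 < q ^ C := Nat.pow_pos (by omega)
  exact Pool.Agent.W855.steiner_iff hq2 (by omega) fun h3 hadm => hC q hq h3 n hn hadm

end Pool.Agent.Results.MP_409a13_co.PolynomialThreshold
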